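import Pool.Agent.H9.SF.WDefs

/-! # WD: countable models which are closed under countably many Skolem functions -/

set_option linter.unusedVariables false

open Set
open scoped ZFSet

namespace SF.H19

open SF

deriving instance Countable for SF.Fml

section WD

variable {κ : Type} [Countable κ]

/-- a Skolem function -/
noncomputable def wdSk (RR : κ → (ℕ → V) → Prop) (a : κ) (v : ℕ → V) : V :=
  open Classical in if h : ∃ x, RR a (cons x v) then h.choose else ∅

/-- the levels of the Skolem hull of the empty set -/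
noncomputable def wdX (RR : κ → (ℕ → V) → Prop) : ℕ → Set V
  | 0 => {∅}
  | m + 1 => wdX RR m ∪ Set.range fun p : κ × List (wdX RR m) =>
      wdSk RR p.1 fun i => (p.2.map Subtype.val).getD i ∅

theorem wdX_countable (RR : κ → (ℕ → V) → Prop) (m : ℕ) : (wdX RR m).Countable := by
  induction m with
  | zero => exact Set.countable_singleton _
  | succ m ih =>
    have : Countable (wdX RR m) := ih.to_subtype
    exact ih.union (Set.countable_range _)

omit [Countable κ] in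
theorem wdX_mono (RR : κ → (ℕ → V) → Prop) {m n : ℕ} (h : m ≤ n) : wdX RR m ⊆ wdX RR n := by
  induction n, h using Nat.le_induction with
  | base => exact subset_rfl
  | succ n _ ih => exact ih.trans Set.subset_union_left

/-- the Skolem hull of the empty set -/
noncomputable def wdH (RR : κ → (ℕ → V) → Prop) : Set V := ⋃ m, wdX RR m

theorem wdH_countable (RR : κ → (ℕ → V) → Prop) : (wdH RR).Countable :=
  Set.countable_iUnion (wdX_countable RR)

omit [Countable κ] in
theorem wdH_empty (RR : κ → (ℕ → V) → Prop) : (∅ : V) ∈ wdH RR :=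
  Set.mem_iUnion.2 ⟨0, rfl⟩

omit [Countable κ] in
theorem wdH_level (RR : κ → (ℕ → V) → Prop) (v : ℕ → V) (hv : ∀ i, v i ∈ wdH RR) (k : ℕ) :
    ∃ m, ∀ i < k, v i ∈ wdX RR m := by
  induction k with
  | zero => exact ⟨0, fun i hi => absurd hi (Nat.not_lt_zero i)⟩
  | succ k ih =>
    obtain ⟨m, hm⟩ := ih
    obtain ⟨m', hm'⟩ := Set.mem_iUnion.1 (hv k)
    refine ⟨max m m', fun i hi => ?_⟩
    rcases Nat.lt_succ_iff_lt_or_eq.1 hi with h | h
    · exact wdX_mono RR (le_max_left _ _) (hm i h)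
    · subst h
      exact wdX_mono RR (le_max_right _ _) hm'

omit [Countable κ] in
theorem wdH_closed (RR : κ → (ℕ → V) → Prop) (hF : ∀ a, FinSup (RR a)) (a : κ) (v : ℕ → V)
    (hv : ∀ i, v i ∈ wdH RR) (hx : ∃ x, RR a (cons x v)) :
    ∃ x ∈ wdH RR, RR a (cons x v) := by
  obtain ⟨k, hk⟩ := hF a
  obtain ⟨m, hm⟩ := wdH_level RR v hv k
  let l : List (wdX RR m) := List.ofFn fun i : Fin k => ⟨v i, hm i i.2⟩
  let w : ℕ → V := fun i => (l.map Subtype.val).getD i ∅
  have hw : ∀ i < k, w i = v i := by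
    intro i hi
    simp only [w, l, List.map_ofFn, List.getD_eq_getElem?_getD]
    rw [List.getElem?_ofFn]
    simp [hi]
  have key : ∀ x, RR a (cons x v) ↔ RR a (cons x w) := by
    intro x
    refine hk _ _ fun i hi => ?_
    cases i with
    | zero => rfl
    | succ i => exact (hw i (by omega)).symm
  have hx' : ∃ x, RR a (cons x w) := by
    obtain ⟨x, hx⟩ := hx
    exact ⟨x, (key x).1 hx⟩
  have hsk : RR a (cons (wdSk RR a w) w) := by
    unfold wdSk
    rw [dif_pos hx']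
    exact hx'.choose_spec
  refine ⟨wdSk RR a w, ?_, (key _).2 hsk⟩
  refine Set.mem_iUnion.2 ⟨m + 1, Or.inr ⟨(a, l), rfl⟩⟩

end WD

/-! ## the collapse -/

/-- the collapse of `X` -/
noncomputable def wdC (X : Set V) (x : V) : V :=
  open Classical in
  ZFSet.range fun y : {y // y ∈ x.sep fun y => y ∈ X} => wdC X y.1
termination_by x.rank
decreasing_by exact ZFSet.rank_lt_of_mem (ZFSet.mem_sep.1 y.2).1

theorem mem_wdC {X : Set V} {x z : V} : z ∈ wdC X x ↔ ∃ y ∈ x, y ∈ X ∧ wdC X y = z := by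
  rw [wdC, ZFSet.mem_range]
  constructor
  · rintro ⟨⟨y, hy⟩, h⟩
    obtain ⟨h1, h2⟩ := ZFSet.mem_sep.1 hy
    exact ⟨y, h1, h2, h⟩
  · rintro ⟨y, h1, h2, h⟩
    exact ⟨⟨y, ZFSet.mem_sep.2 ⟨h1, h2⟩⟩, h⟩

/-- elements of `X` are distinguished by elements of `X` -/
def WdExt (X : Set V) : Prop := ∀ x ∈ X, ∀ y ∈ X, x ≠ y → ∃ z ∈ X, (z ∈ x ∧ z ∉ y) ∨ (z ∈ y ∧ z ∉ x)

theorem wdC_inj {X : Set V} (hX : WdExt X) : ∀ x, x ∈ X → ∀ y ∈ X, wdC X x = wdC X y → x = y := by
  intro x
  induction x using ZFSet.inductionOn with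
  | _ x ih =>
    intro hx y hy hxy
    by_contra hne
    obtain ⟨z, hz, h | h⟩ := hX x hx y hy hne
    · have h1 : wdC X z ∈ wdC X x := mem_wdC.2 ⟨z, h.1, hz, rfl⟩
      rw [hxy] at h1
      obtain ⟨z', hz', hz'X, he⟩ := mem_wdC.1 h1
      have h2 := ih z h.1 hz z' hz'X he.symm
      rw [h2] at h
      exact h.2 hz'
    · have h1 : wdC X z ∈ wdC X y := mem_wdC.2 ⟨z, h.1, hz, rfl⟩
      rw [← hxy] at h1
      obtain ⟨z', hz', hz'X, he⟩ := mem_wdC.1 h1
      have h2 := ih z' hz' hz'X z hz he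
      rw [← h2] at h
      exact h.2 hz'

theorem wdC_mem {X : Set V} (hX : WdExt X) {x y : V} (hx : x ∈ X) (hy : y ∈ X) :
    wdC X x ∈ wdC X y ↔ x ∈ y := by
  constructor
  · intro h
    obtain ⟨z, h1, h2, h3⟩ := mem_wdC.1 h
    rw [← wdC_inj hX z h2 x hx h3]
    exact h1
  · intro h
    exact mem_wdC.2 ⟨x, h, hx, rfl⟩

/-- the collapse is an isomorphism -/
theorem wd_iso {X : Set V} (hX : WdExt X) (M : V) (hM : ∀ z, z ∈ M ↔ ∃ x ∈ X, wdC X x = z)
    (φ : Fml) : ∀ w : ℕ → V, (∀ i, w i ∈ X) →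
      (Sat (· ∈ M) φ (fun i => wdC X (w i)) ↔ Sat (· ∈ X) φ w) := by
  induction φ with
  | mem i j =>
    intro w hw
    exact wdC_mem hX (hw i) (hw j)
  | eq i j =>
    intro w hw
    exact ⟨fun h => wdC_inj hX _ (hw i) _ (hw j) h, fun h => congrArg (wdC X) h⟩
  | prd i => exact fun w hw => Iff.rfl
  | neg φ ih => exact fun w hw => not_congr (ih w hw)
  | and φ ψ ih1 ih2 => exact fun w hw => and_congr (ih1 w hw) (ih2 w hw)
  | ex φ ih =>
    intro w hw
    constructor
    · rintro ⟨x, hx, h⟩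
      obtain ⟨y, hy, rfl⟩ := (hM x).1 hx
      refine ⟨y, hy, ?_⟩
      have h2 : ∀ i, cons y w i ∈ X := by
        intro i
        cases i with
        | zero => exact hy
        | succ i => exact hw i
      refine (ih (cons y w) h2).1 ?_
      have h3 : (fun i => wdC X (cons y w i)) = cons (wdC X y) fun i => wdC X (w i) := by
        funext i
        cases i <;> rfl
      rw [h3]
      exact h
    · rintro ⟨y, hy, h⟩
      refine ⟨wdC X y, (hM _).2 ⟨y, hy, rfl⟩, ?_⟩
      have h2 : ∀ i, cons y w i ∈ X := by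
        intro i
        cases i with
        | zero => exact hy
        | succ i => exact hw i
      have h4 := (ih (cons y w) h2).2 h
      have h3 : (fun i => wdC X (cons y w i)) = cons (wdC X y) fun i => wdC X (w i) := by
        funext i
        cases i <;> rfl
      rw [h3] at h4
      exact h4

/-- Tarski–Vaught -/
theorem wd_tv {X : Set V} (hcl : ∀ (φ : Fml) (v : ℕ → V), (∀ i, v i ∈ X) →
    (∃ x, Sat Al φ (cons x v)) → ∃ x ∈ X, Sat Al φ (cons x v)) (φ : Fml) :
    ∀ v : ℕ → V, (∀ i, v i ∈ X) → (Sat (· ∈ X) φ v ↔ Sat Al φ v) := by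
  induction φ with
  | mem i j => exact fun v hv => Iff.rfl
  | eq i j => exact fun v hv => Iff.rfl
  | prd i => exact fun v hv => Iff.rfl
  | neg φ ih => exact fun v hv => not_congr (ih v hv)
  | and φ ψ ih1 ih2 => exact fun v hv => and_congr (ih1 v hv) (ih2 v hv)
  | ex φ ih =>
    intro v hv
    have h2 : ∀ y ∈ X, ∀ i, cons y v i ∈ X := by
      intro y hy i
      cases i with
      | zero => exact hy
      | succ i => exact hv i
    constructor
    · rintro ⟨x, hx, h⟩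
      exact ⟨x, trivial, (ih (cons x v) (h2 x hx)).1 h⟩
    · rintro ⟨x, -, h⟩
      obtain ⟨y, hy, h'⟩ := hcl φ v hv ⟨x, h⟩
      exact ⟨y, hy, (ih (cons y v) (h2 y hy)).2 h'⟩

theorem wd : T_WD := by
  classical
  intro ι _ R hR
  let RR : ι ⊕ Fml → (ℕ → V) → Prop := fun a v => Sum.elim (fun n => R n v) (fun φ => Sat Al φ v) a
  have hRR : ∀ a, FinSup (RR a) := by
    rintro (n | φ)
    · exact hR n
    · exact ⟨φ.bd, fun v w h => satP_congr _ _ φ v w h⟩
  let X : Set V := wdH RR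
  have hXc : X.Countable := wdH_countable RR
  have hcl := wdH_closed RR hRR
  have hcl2 : ∀ (φ : Fml) (v : ℕ → V), (∀ i, v i ∈ X) →
      (∃ x, Sat Al φ (cons x v)) → ∃ x ∈ X, Sat Al φ (cons x v) :=
    fun φ v hv hx => hcl (Sum.inr φ) v hv hx
  have hext : WdExt X := by
    intro x hx y hy hne
    have h0 : ∃ z, (z ∈ x ∧ z ∉ y) ∨ (z ∈ y ∧ z ∉ x) := by
      by_contra hno
      apply hne
      ext z
      by_contra hz
      apply hno
      refine ⟨z, ?_⟩
      by_cases h1 : z ∈ x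
      · exact Or.inl ⟨h1, fun h2 => hz ⟨fun _ => h2, fun _ => h1⟩⟩
      · refine Or.inr ⟨?_, h1⟩
        by_contra h2
        exact hz ⟨fun h => absurd h h1, fun h => absurd h h2⟩
    obtain ⟨z, h | h⟩ := h0
    · have hv : ∀ i, cons x (fun _ => y) i ∈ X := by
        intro i
        cases i with
        | zero => exact hx
        | succ i => exact hy
      obtain ⟨z', hz', h'⟩ := hcl2 (.and (.mem 0 1) (.neg (.mem 0 2))) (cons x fun _ => y) hv
        ⟨z, h.1, h.2⟩
      exact ⟨z', hz', Or.inl ⟨h'.1, h'.2⟩⟩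
    · have hv : ∀ i, cons x (fun _ => y) i ∈ X := by
        intro i
        cases i with
        | zero => exact hx
        | succ i => exact hy
      obtain ⟨z', hz', h'⟩ := hcl2 (.and (.mem 0 2) (.neg (.mem 0 1))) (cons x fun _ => y) hv
        ⟨z, h.1, h.2⟩
      exact ⟨z', hz', Or.inr ⟨h'.1, h'.2⟩⟩
  have : Countable X := hXc.to_subtype
  let M : V := ZFSet.range fun x : X => wdC X x.1
  have hM : ∀ z, z ∈ M ↔ ∃ x ∈ X, wdC X x = z := by
    intro z
    rw [ZFSet.mem_range]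
    constructor
    · rintro ⟨⟨x, hx⟩, h⟩
      exact ⟨x, hx, h⟩
    · rintro ⟨x, hx, h⟩
      exact ⟨⟨x, hx⟩, h⟩
  let j : V → V := fun z => if h : ∃ x ∈ X, wdC X x = z then h.choose else ∅
  have hj : ∀ x ∈ X, j (wdC X x) = x := by
    intro x hx
    have h : ∃ y ∈ X, wdC X y = wdC X x := ⟨x, hx, rfl⟩
    simp only [j, dif_pos h]
    exact wdC_inj hext _ h.choose_spec.1 _ hx h.choose_spec.2
  have hjM : ∀ z ∈ M, j z ∈ X ∧ wdC X (j z) = z := by
    intro z hz
    obtain ⟨x, hx, rfl⟩ := (hM z).1 hz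
    rw [hj x hx]
    exact ⟨hx, rfl⟩
  refine ⟨M, j, ⟨?_, ?_, ?_, ?_, ?_⟩, ?_⟩
  · exact ⟨wdC X ∅, (hM _).2 ⟨∅, wdH_empty RR, rfl⟩⟩
  · intro y hy z hz
    obtain ⟨x, hx, rfl⟩ := (hM y).1 hy
    obtain ⟨w, hw, hwX, rfl⟩ := mem_wdC.1 hz
    exact (hM _).2 ⟨w, hwX, rfl⟩
  · refine (hXc.image (wdC X)).mono ?_
    intro z hz
    obtain ⟨x, hx, h⟩ := (hM z).1 hz
    exact ⟨x, hx, h⟩
  · exact fun x _ => trivial
  · intro φ v hv
    have h1 := wd_iso hext M hM φ (fun i => j (v i)) (fun i => (hjM _ (hv i)).1)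
    have h2 : (fun i => wdC X (j (v i))) = v := funext fun i => (hjM _ (hv i)).2
    rw [h2] at h1
    exact h1.trans (wd_tv hcl2 φ _ fun i => (hjM _ (hv i)).1)
  · intro n v hv hx
    obtain ⟨x, hxX, hR'⟩ := hcl (Sum.inl n) (fun i => j (v i)) (fun i => (hjM _ (hv i)).1) hx
    refine ⟨wdC X x, (hM _).2 ⟨x, hxX, rfl⟩, ?_⟩
    rw [hj x hxX]
    exact hR'

end SF.H19
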