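import Pool.Agent.H9.SF.WDefs

/-! # WG: complete Boolean algebras in the universe -/

set_option linter.unusedVariables false

open Set
open scoped ZFSet

namespace SF.H19

open SF

theorem wg_eqe {x : V} (h : ∀ z, z ∉ x) : x = ∅ := by
  ext z
  exact ⟨fun hz => absurd hz (h z), fun hz => absurd hz (ZFSet.notMem_empty z)⟩

theorem wg_int {x y : V} : x ∩ y = ∅ ↔ ∀ z ∈ x, z ∉ y := by
  constructor
  · intro h z hx hy
    have : z ∈ x ∩ y := ZFSet.mem_inter.2 ⟨hx, hy⟩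
    rw [h] at this
    exact ZFSet.notMem_empty z this
  · intro h
    refine wg_eqe fun z hz => ?_
    exact h z (ZFSet.mem_inter.1 hz).1 (ZFSet.mem_inter.1 hz).2

/-- the complete Boolean algebra -/
theorem wg_ex {B : V} (h : CBAr Al B) :
    ∃ i : CompleteBooleanAlgebra (El B), ∀ x y : El B, i.le x y ↔ x.val ⊆ y.val := by
  classical
  let po : PartialOrder (El B) :=
    { le := fun x y => x.val ⊆ y.val
      le_refl := fun x => subset_refl x.val
      le_trans := fun x y z hxy hyz => fun w hw => hyz (hxy hw)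
      le_antisymm := fun x y hxy hyx => El.ext (subset_antisymm hxy hyx) }
  have hle : ∀ x y : El B, x ≤ y ↔ x.val ⊆ y.val := fun x y => Iff.rfl
  have hsup : ∀ S : Set (El B), ∃ b : El B, IsLUB S b := by
    intro S
    obtain ⟨b, hb, hb1, hb2⟩ := h.lub (B.sep fun s => ∃ x : El B, x ∈ S ∧ x.val = s) trivial
      (fun z hz => (ZFSet.mem_sep.1 hz).1)
    refine ⟨⟨b, hb⟩, ?_, ?_⟩
    · intro x hx
      exact hb1 x.val (ZFSet.mem_sep.2 ⟨x.mem, x, hx, rfl⟩)
    · intro b' hb'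
      refine hb2 b'.val b'.mem fun s hs => ?_
      obtain ⟨-, x, hx, rfl⟩ := ZFSet.mem_sep.1 hs
      exact hb' hx
  choose sS hsS using hsup
  let _ : SupSet (El B) := ⟨sS⟩
  let cl : CompleteLattice (El B) := completeLatticeOfSup (El B) hsS
  have hcpl : ∀ x : El B, ∃ y : El B, x.val ∩ y.val = ∅ ∧ (∀ z : El B, z.val ∩ x.val = ∅ → z ≤ y) ∧
      ∀ z : El B, z.val ∩ y.val = ∅ → z ≤ x := by
    intro x
    obtain ⟨y, hy, h1, h2, h3⟩ := h.cpl x.val x.mem
    exact ⟨⟨y, hy⟩, h1, fun z hz => h2 z.val z.mem hz, fun z hz => h3 z.val z.mem hz⟩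
  choose c hc1 hc2 hc3 using hcpl
  have hbot : (⊥ : El B).val = ∅ := by
    have h1 : (⊥ : El B) ≤ ⟨∅, h.bot⟩ := bot_le
    exact subset_antisymm h1 (ZFSet.empty_subset _)
  have hinf : ∀ x y : El B, (x ⊓ y).val = x.val ∩ y.val := by
    intro x y
    have h1 : (⟨x.val ∩ y.val, h.inter _ x.mem _ y.mem⟩ : El B) ≤ x ⊓ y := by
      refine le_inf ?_ ?_
      · intro z hz; exact (ZFSet.mem_inter.1 hz).1
      · intro z hz; exact (ZFSet.mem_inter.1 hz).2
    refine subset_antisymm ?_ h1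
    intro z hz
    exact ZFSet.mem_inter.2 ⟨(inf_le_left : x ⊓ y ≤ x) hz, (inf_le_right : x ⊓ y ≤ y) hz⟩
  have hdis : ∀ x y : El B, x.val ∩ y.val = ∅ ↔ x ⊓ y = ⊥ := by
    intro x y
    rw [← hinf]
    constructor
    · intro h1
      apply El.ext
      rw [hbot]
      exact h1
    · intro h1
      rw [h1, hbot]
  have hlec : ∀ x y : El B, x ≤ c y ↔ x ⊓ y = ⊥ := by
    intro x y
    constructor
    · intro h1
      have h2 : x ⊓ y ≤ c y ⊓ y := inf_le_inf_right y h1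
      have h3 : c y ⊓ y = ⊥ := by
        rw [inf_comm, ← hdis]
        exact hc1 y
      exact le_bot_iff.1 (h2.trans h3.le)
    · intro h1
      exact hc2 y x ((hdis x y).2 h1)
  have hle2 : ∀ x y : El B, x ≤ y ↔ x ⊓ c y = ⊥ := by
    intro x y
    constructor
    · intro h1
      have h2 : x ⊓ c y ≤ y ⊓ c y := inf_le_inf_right _ h1
      have h3 : y ⊓ c y = ⊥ := (hdis _ _).1 (hc1 y)
      exact le_bot_iff.1 (h2.trans h3.le)
    · intro h1
      exact hc3 y x ((hdis _ _).2 h1)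
  have hdistr : ∀ a b d : El B, a ⊓ (b ⊔ d) ≤ (a ⊓ b) ⊔ (a ⊓ d) := by
    intro a b d
    rw [hle2, inf_assoc, inf_left_comm, ← hlec]
    refine sup_le ?_ ?_
    · rw [hlec, ← inf_assoc, inf_comm b a, ← hle2]
      exact le_sup_left
    · rw [hlec, ← inf_assoc, inf_comm d a, ← hle2]
      exact le_sup_right
  let dl : DistribLattice (El B) := DistribLattice.ofInfSupLe hdistr
  have hlsi : ∀ x y z : El B, (x ⊔ y) ⊓ (x ⊔ z) ≤ x ⊔ (y ⊓ z) := dl.le_sup_inf
  have htop : ∀ x : El B, ⊤ ≤ x ⊔ c x := by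
    intro x
    rw [hle2, top_inf_eq]
    have h1 : c (x ⊔ c x) ≤ c x := by
      rw [hlec]
      have h2 : c (x ⊔ c x) ⊓ x ≤ c (x ⊔ c x) ⊓ (x ⊔ c x) := inf_le_inf_left _ le_sup_left
      exact le_bot_iff.1 (h2.trans ((hlec _ _).1 le_rfl).le)
    have h3 : c (x ⊔ c x) ≤ c (x ⊔ c x) ⊓ (x ⊔ c x) := le_inf le_rfl (h1.trans le_sup_right)
    exact le_bot_iff.1 (h3.trans ((hlec _ _).1 le_rfl).le)
  refine ⟨{ cl with
    le_sup_inf := hlsi
    compl := c
    sdiff := fun a b => a ⊓ c b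
    himp := fun a b => b ⊔ c a
    inf_compl_le_bot := fun x => ((hdis _ _).1 (hc1 x)).le
    top_le_sup_compl := htop
    sdiff_eq := fun a b => rfl
    himp_eq := fun a b => rfl }, fun x y => Iff.rfl⟩

theorem wg_pos {B x : V} : x ∈ pos B ↔ x ∈ B ∧ x ≠ ∅ := by
  unfold pos
  rw [ZFSet.mem_sdiff, ZFSet.mem_singleton]

theorem wg_incl {B p q : V} : ZFSet.pair p q ∈ incl B ↔ p ∈ pos B ∧ q ∈ pos B ∧ p ⊆ q := by
  unfold incl
  rw [ZFSet.mem_sep, ZFSet.pair_mem_prod, fst_pair, snd_pair]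
  tauto

theorem wg : T_WG := by
  classical
  refine ⟨fun B => ⟨fun hB => ?_, fun hB => ⟨wg_ex hB, hB.bot, hB.inter⟩⟩, ?_, ?_, ?_⟩
  · refine ⟨hB.bot, hB.inter, ?_, ?_⟩
    · intro S _ hS
      refine ⟨(sSup {x : El B | x.val ∈ S}).val, El.mem _, ?_, ?_⟩
      · intro s hs
        exact El.le_iff.1 (le_sSup (show (⟨s, hS hs⟩ : El B) ∈ {x : El B | x.val ∈ S} from hs))
      · intro b' hb' h
        have h3 : sSup {x : El B | x.val ∈ S} ≤ (⟨b', hb'⟩ : El B) :=
          sSup_le fun x hx => El.le_iff.2 (h x.val hx)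
        exact El.le_iff.1 h3
    · intro x hx
      have hd : ∀ y z : El B, y.val ∩ z.val = ∅ ↔ y ⊓ z = ⊥ := by
        intro y z
        rw [← El.inf_val]
        constructor
        · intro h
          apply El.ext
          rw [El.bot_val]
          exact h
        · intro h
          rw [h, El.bot_val]
      refine ⟨((⟨x, hx⟩ : El B)ᶜ).val, El.mem _, ?_, ?_, ?_⟩
      · exact (hd ⟨x, hx⟩ _).2 inf_compl_eq_bot
      · intro z hz h
        have h1 := (hd ⟨z, hz⟩ ⟨x, hx⟩).1 h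
        exact El.le_iff.1 (le_compl_iff_disjoint_right.2 (disjoint_iff.2 h1) :
          (⟨z, hz⟩ : El B) ≤ (⟨x, hx⟩ : El B)ᶜ)
      · intro z hz h
        have h1 := (hd ⟨z, hz⟩ (⟨x, hx⟩ : El B)ᶜ).1 h
        have h2 : (⟨z, hz⟩ : El B) ≤ (⟨x, hx⟩ : El B)ᶜᶜ :=
          le_compl_iff_disjoint_right.2 (disjoint_iff.2 h1)
        rw [compl_compl] at h2
        exact El.le_iff.1 h2
  · intro B _ S b
    constructor
    · rintro ⟨-, h1, h2⟩
      refine le_antisymm ?_ ?_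
      · refine El.le_iff.2 (h2 _ (El.mem _) fun s hs => ?_)
        obtain ⟨-, x, hx, rfl⟩ := ZFSet.mem_sep.1 hs
        exact El.le_iff.1 (le_sSup hx)
      · refine sSup_le fun x hx => El.le_iff.2 ?_
        exact h1 x.val (ZFSet.mem_sep.2 ⟨x.mem, x, hx, rfl⟩)
    · rintro rfl
      refine ⟨El.mem _, ?_, ?_⟩
      · intro s hs
        obtain ⟨-, x, hx, rfl⟩ := ZFSet.mem_sep.1 hs
        exact El.le_iff.1 (le_sSup hx)
      · intro b' hb' h
        have h3 : sSup S ≤ (⟨b', hb'⟩ : El B) := sSup_le fun x hx =>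
          El.le_iff.2 (h x.val (ZFSet.mem_sep.2 ⟨x.mem, x, hx, rfl⟩))
        exact El.le_iff.1 h3
  · intro M B hB hne
    refine ⟨?_, ?_, ?_, ?_⟩
    · by_contra hno
      apply hne
      ext z
      rw [ZFSet.mem_singleton]
      constructor
      · intro hz
        by_contra hz0
        exact hno ⟨z, wg_pos.2 ⟨hz, hz0⟩⟩
      · rintro rfl
        exact hB.bot
    · intro z hz
      obtain ⟨h1, -⟩ := ZFSet.mem_sep.1 hz
      obtain ⟨p, hp, q, hq, h⟩ := ZFSet.mem_prod.1 h1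
      exact ⟨p, hp, q, hq, h⟩
    · intro p hp
      exact wg_incl.2 ⟨hp, hp, subset_refl p⟩
    · intro p q s hpq hqs
      obtain ⟨h1, -, h2⟩ := wg_incl.1 hpq
      obtain ⟨-, h3, h4⟩ := wg_incl.1 hqs
      exact wg_incl.2 ⟨h1, h3, fun z hz => h4 (h2 hz)⟩
  · intro M B hB
    refine ⟨?_, ?_⟩
    · intro x hx y hy hxy
      obtain ⟨y', hy', h1, h2, h3⟩ := hB.cpl y hy
      refine ⟨x ∩ y', hB.inter _ hx _ hy', ?_, ?_, ?_⟩
      · intro h
        exact hxy (h3 x hx h)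
      · intro z hz
        exact (ZFSet.mem_inter.1 hz).1
      · rw [wg_int]
        intro z hz hzy
        exact wg_int.1 h1 z hzy (ZFSet.mem_inter.1 hz).2
    · intro S b x hb hS hx hs
      obtain ⟨x', hx', h1, h2, -⟩ := hB.cpl x hx
      have h4 : b ⊆ x' := hb.2.2 x' hx' fun s hs' => h2 s (hS hs') (hs s hs')
      rw [wg_int]
      intro z hz hzx
      exact wg_int.1 h1 z hzx (h4 hz)

end SF.H19
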