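import Pool.Agent.H9.SF.WDefs

/-! # WL: `ω₁` is preserved -/

set_option linter.unusedVariables false

open Set
open scoped ZFSet

namespace SF.H19

open SF

theorem wl_exists {x : V} (h : x ≠ ∅) : ∃ e, e ∈ x := by
  by_contra hno
  push Not at hno
  apply h
  ext z
  exact ⟨fun hz => absurd hz (hno z), fun hz => absurd hz (ZFSet.notMem_empty z)⟩

theorem wl_pos {B x : V} : x ∈ pos B ↔ x ∈ B ∧ x ≠ ∅ := by
  unfold pos
  rw [ZFSet.mem_sdiff, ZFSet.mem_singleton]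

theorem wl_in {M : V → Prop} {x : V} {v : ℕ → V} (hx : M x) (hv : In M v) : In M (cons x v) :=
  hv.cons hx

/-- the set of the conditions which decide the function -/
theorem wl_sep {M : V → Prop} (k : ZFm M) {P b o F : V} (hP : M P) (hb : M b) (ho : M o)
    (hF : M F) : M (P.sep fun s => s ⊆ b ∧ ∃ φ, M φ ∧ (ZFSet.IsFunc om o φ ∧
      ∀ n ∈ om, s ⊆ app F (ZFSet.pair n (app φ n)))) := by
  have h0 : Dfb ZFm (fun _ v => v 2 ⊆ app (v 6) (ZFSet.pair (v 0) (app (v 1) (v 0)))) :=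
    Dfb.subset (Tm.var 2) (Tm.app (Tm.var 6) (Tm.pair (Tm.var 0) (Tm.app (Tm.var 1) (Tm.var 0))))
  have h1 : Dfb ZFm (fun _ v => ∀ n ∈ om, v 1 ⊆ app (v 5) (ZFSet.pair n (app (v 0) n))) :=
    (Dfb.ball (R := fun _ v => v 2 ⊆ app (v 6) (ZFSet.pair (v 0) (app (v 1) (v 0)))) ktr_zfm
      Tm.om h0).congr fun M k v hv => Iff.rfl
  have h2 : Dfb ZFm (fun _ v => ZFSet.IsFunc om (v 4) (v 0) ∧
      ∀ n ∈ om, v 1 ⊆ app (v 5) (ZFSet.pair n (app (v 0) n))) :=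
    (Dfb.isFunc Tm.om (Tm.var 4) (Tm.var 0)).and h1
  have h3 : Dfb ZFm (fun M v => ∃ φ, M φ ∧ (ZFSet.IsFunc om (v 3) φ ∧
      ∀ n ∈ om, v 0 ⊆ app (v 4) (ZFSet.pair n (app φ n)))) :=
    h2.ex.congr fun M k v hv => Iff.rfl
  have h4 : Dfb ZFm (fun M v => v 0 ⊆ v 2 ∧ ∃ φ, M φ ∧ (ZFSet.IsFunc om (v 3) φ ∧
      ∀ n ∈ om, v 0 ⊆ app (v 4) (ZFSet.pair n (app φ n)))) :=
    (Dfb.subset (Tm.var 0) (Tm.var 2)).and h3
  exact (Tm.sep h4 (Tm.var 0)).1 M k (cons P (cons b (cons o fun _ => F)))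
    (wl_in hP (wl_in hb (wl_in ho fun _ => hF)))

/-- the names of pairs -/
theorem wl_F (hFH : T_FH) (hWF : T_WF) {M : V → Prop} (k : ZFm M) {B o n : V} (hB : M B)
    (ho : M o) (hn : M n) : M (resS (ZFSet.prod om o) fun q => bv M B (.mem 0 1)
      (cons (opn (pos B) (ck (pos B) (fst q)) (ck (pos B) (snd q))) fun _ => n)) := by
  obtain ⟨-, -, -, -, -, hck, -, -, hopn⟩ := hFH
  obtain ⟨-, -, hpos, -, hbv⟩ := hWF
  have t1 : Tm ZFm (fun _ v => pos (v 1)) := Tm.at1 (F := fun _ x => pos x) hpos (Tm.var 1)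
  have t2 : Tm ZFm (fun _ v => ck (pos (v 1)) (fst (v 0))) :=
    Tm.at2 (F := fun _ x y => ck x y) hck t1 (Tm.fst (Tm.var 0))
  have t3 : Tm ZFm (fun _ v => ck (pos (v 1)) (snd (v 0))) :=
    Tm.at2 (F := fun _ x y => ck x y) hck t1 (Tm.snd (Tm.var 0))
  have t4 : Tm ZFm (fun _ v => opn (pos (v 1)) (ck (pos (v 1)) (fst (v 0)))
      (ck (pos (v 1)) (snd (v 0)))) := Tm.at3 (F := fun _ x y z => opn x y z) hopn t1 t2 t3
  let Fn : ℕ → (V → Prop) → (ℕ → V) → V := fun i => match i with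
    | 0 => fun _ v => v 1
    | 1 => fun _ v => opn (pos (v 1)) (ck (pos (v 1)) (fst (v 0))) (ck (pos (v 1)) (snd (v 0)))
    | _ + 2 => fun _ v => v 3
  have hFn : ∀ i, Tm ZFm (Fn i) := by
    intro i
    match i with
    | 0 => exact Tm.var 1
    | 1 => exact t4
    | _ + 2 => exact Tm.var 3
  have t5 := (hbv (.mem 0 1)).comp Fn hFn
  have t6 := Tm.resS (Tm.prod Tm.om (Tm.var 1)) t5
  have t7 := t6.1 M k (cons B (cons o fun _ => n)) (wl_in hB (wl_in ho fun _ => hn))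
  have e : ∀ q, (fun i => Fn (i + 1) M (cons q (cons B (cons o fun _ => n)))) =
      cons (opn (pos B) (ck (pos B) (fst q)) (ck (pos B) (snd q))) fun _ => n := by
    intro q
    funext i
    cases i <;> rfl
  have e2 : (resS (ZFSet.prod om o) fun q => bv M B (.mem 0 1)
      (fun i => Fn (i + 1) M (cons q (cons B (cons o fun _ => n))))) =
      resS (ZFSet.prod om o) fun q => bv M B (.mem 0 1)
      (cons (opn (pos B) (ck (pos B) (fst q)) (ck (pos B) (snd q))) fun _ => n) := by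
    refine resS_congr fun q _ => ?_
    rw [e q]
  rw [← e2]
  exact t7

theorem wl (hFH : T_FH) (hFI : T_FI) (hFM : T_FM) (hWF : T_WF) (hWG : T_WG) (hWH : T_WH)
    (hWI : T_WI) : T_WL := by
  intro M α B G hM hMc hMB hcb hBne ho hNB hG
  have k : ZFm M := hM.toZFm
  have hpo : IsPo (pos B) (incl B) := hWG.2.2.1 M B hcb hBne
  have hMP : M (pos B) := hWF.2.2.1.1 M k (fun _ => B) fun _ => hMB
  have hMI : M (incl B) := hWF.2.2.2.1.1 M k (fun _ => B) fun _ => hMB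
  have hExt := hFI M (pos B) (incl B) G k hMP hMI hpo hG
  refine ⟨hExt.2.1 _ ho.1, ?_, ?_⟩
  swap
  · intro β hβ
    rcases ho.2.2 β hβ with h | ⟨f, hf, hf2⟩
    · exact Or.inl h
    · exact Or.inr ⟨f, hExt.2.1 _ hf, hf2⟩
  rintro (h | ⟨f, ⟨n, hn, rfl⟩, hf⟩)
  · exact ho.2.1 (Or.inl h)
  set αs : V := α.toZFSet with hαs
  have hMα : M αs := ho.1
  have hMom : M om := k.inf
  have hckM : ∀ x, M x → M (ck (pos B) x) := fun x hx =>
    hFH.2.2.2.2.2.1.1 M k (cons (pos B) fun _ => x) (wl_in hMP fun _ => hx)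
  have hopnM : ∀ x y, M x → M y → M (opn (pos B) x y) := fun x y hx hy =>
    hFH.2.2.2.2.2.2.2.2.1 M k (cons (pos B) (cons x fun _ => y)) (wl_in hMP (wl_in hx fun _ => hy))
  have hck : ∀ G1, Gen M (pos B) (incl B) G1 → ∀ x, val G1 (ck (pos B) x) = x :=
    fun G1 hG1 x => hFH.2.1 (pos B) G1 x hG1.1.sub hG1.1.ne
  have hopn : ∀ G1, Gen M (pos B) (incl B) G1 → ∀ x y,
      val G1 (opn (pos B) x y) = ZFSet.pair (val G1 x) (val G1 y) :=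
    fun G1 hG1 x y => hFH.2.2.2.2.1 (pos B) G1 x y hG1.1.sub hG1.1.ne
  -- the Boolean value of the statement that `n` is a function
  obtain ⟨φ0, hφ0⟩ := Dfb.isFunc (Tm.var 0) (Tm.var 1) (Tm.var 2)
  let u0 : ℕ → V := cons (ck (pos B) om) (cons (ck (pos B) αs) fun _ => n)
  have hu0 : In M u0 := wl_in (hckM _ hMom) (wl_in (hckM _ hMα) fun _ => hn)
  obtain ⟨hbB, -, hbG⟩ := hWI M B k hMB hcb hBne φ0 u0 hu0
  set b : V := bv M B φ0 u0 with hbdef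
  have hA : ∀ G1, Gen M (pos B) (incl B) G1 → (b ∈ G1 ↔ ZFSet.IsFunc om αs (val G1 n)) := by
    intro G1 hG1
    rw [hbG G1 hG1]
    have h1 := hφ0 (Ext M G1) (hFI M (pos B) (incl B) G1 k hMP hMI hpo hG1).1
      (fun i => val G1 (u0 i)) fun i => ⟨u0 i, hu0 i, rfl⟩
    rw [h1]
    show ZFSet.IsFunc (val G1 (ck (pos B) om)) (val G1 (ck (pos B) αs)) (val G1 n) ↔ _
    rw [hck G1 hG1, hck G1 hG1]
  let u1 : V → ℕ → V := fun q =>
    cons (opn (pos B) (ck (pos B) (fst q)) (ck (pos B) (snd q))) fun _ => n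
  have hu1 : ∀ n0 ∈ om, ∀ β ∈ αs, In M (u1 (ZFSet.pair n0 β)) := by
    intro n0 hn0 β hβ
    have h1 : M n0 := k.trans _ hMom _ hn0
    have h2 : M β := k.trans _ hMα _ hβ
    refine wl_in (hopnM _ _ (hckM _ ?_) (hckM _ ?_)) fun _ => hn
    · rw [fst_pair]
      exact h1
    · rw [snd_pair]
      exact h2
  have hB2 : ∀ n0 ∈ om, ∀ β ∈ αs, bv M B (.mem 0 1) (u1 (ZFSet.pair n0 β)) ∈ B ∧
      ∀ G1, Gen M (pos B) (incl B) G1 →
        (bv M B (.mem 0 1) (u1 (ZFSet.pair n0 β)) ∈ G1 ↔ ZFSet.pair n0 β ∈ val G1 n) := by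
    intro n0 hn0 β hβ
    obtain ⟨h1, -, h2⟩ := hWI M B k hMB hcb hBne (.mem 0 1) _ (hu1 n0 hn0 β hβ)
    refine ⟨h1, fun G1 hG1 => ?_⟩
    rw [h2 G1 hG1]
    show val G1 (opn (pos B) (ck (pos B) (fst (ZFSet.pair n0 β)))
      (ck (pos B) (snd (ZFSet.pair n0 β)))) ∈ val G1 n ↔ _
    rw [hopn G1 hG1, hck G1 hG1, hck G1 hG1, fst_pair, snd_pair]
  set F : V := resS (ZFSet.prod om αs) fun q => bv M B (.mem 0 1) (u1 q) with hFdef
  have hMF : M F := wl_F hFH hWF k hMB hMα hn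
  have hFf : ZFSet.IsFunc (ZFSet.prod om αs) B F := by
    refine isFunc_resS _ _ _ fun q hq => ?_
    obtain ⟨n0, hn0, β, hβ, rfl⟩ := ZFSet.mem_prod.1 hq
    exact (hB2 n0 hn0 β hβ).1
  have hFapp : ∀ n0 ∈ om, ∀ β ∈ αs, app F (ZFSet.pair n0 β) =
      bv M B (.mem 0 1) (u1 (ZFSet.pair n0 β)) := fun n0 hn0 β hβ =>
    app_resS (ZFSet.pair_mem_prod.2 ⟨hn0, hβ⟩)
  set S : V := (pos B).sep fun s => s ⊆ b ∧ ∃ φ, M φ ∧ (ZFSet.IsFunc om αs φ ∧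
      ∀ n ∈ om, s ⊆ app F (ZFSet.pair n (app φ n))) with hSdef
  have hMb : M b := k.trans _ hMB _ hbB
  have hMS : M S := wl_sep k hMP hMb hMα hMF
  have hSB : S ⊆ B := fun s hs => (wl_pos.1 (ZFSet.mem_sep.1 hs).1).1
  have hlub : LubB B S b := by
    refine ⟨hbB, fun s hs => (ZFSet.mem_sep.1 hs).2.1, fun b' hb' hup => ?_⟩
    by_contra hnot
    obtain ⟨z, hz, hz0, hzb, hzb'⟩ := (hWG.2.2.2 M B hcb).1 b hbB b' hb' hnot
    obtain ⟨b2, hb2, hb20, hb2z, φ, hMφ, hφf, hφ⟩ := hNB F hMF hFf z hz hz0 (by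
      intro n0 hn0 x hx hx0 hxz
      obtain ⟨G1, hG1, hxG1⟩ := hFM M (pos B) (incl B) x hMc hpo (wl_pos.2 ⟨hx, hx0⟩)
      obtain ⟨w1, w2, w3, -, -, -⟩ := hWH M B G1 k hMB hcb hG1
      have hbG1 : b ∈ G1 := w3 x hxG1 b hbB fun e he => hzb (hxz he)
      have hfun := (hA G1 hG1).1 hbG1
      have hβ := app_mem hfun hn0
      refine ⟨app (val G1 n) n0, hβ, ?_⟩
      rw [hFapp n0 hn0 _ hβ]
      have h3 := ((hB2 n0 hn0 _ hβ).2 G1 hG1).2 (pair_app_mem hfun hn0)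
      exact (w2 _ (w1 x hxG1 _ h3)).2)
    have hb2S : b2 ∈ S := ZFSet.mem_sep.2
      ⟨wl_pos.2 ⟨hb2, hb20⟩, fun e he => hzb (hb2z he), φ, hMφ, hφf, hφ⟩
    obtain ⟨e, he⟩ := wl_exists hb20
    have h1 : e ∈ z ∩ b' := ZFSet.mem_inter.2 ⟨hb2z he, hup b2 hb2S he⟩
    rw [hzb'] at h1
    exact ZFSet.notMem_empty e h1
  obtain ⟨w1, w2, w3, -, w5, -⟩ := hWH M B G k hMB hcb hG
  have hbG' : b ∈ G := (hA G hG).2 hf.1
  obtain ⟨s, hs, hsG⟩ := (w5 S b hMS hSB hlub).1 hbG'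
  obtain ⟨-, -, φ, hMφ, hφf, hφ⟩ := ZFSet.mem_sep.1 hs
  have hval : ∀ n0 ∈ om, ZFSet.pair n0 (app φ n0) ∈ val G n := by
    intro n0 hn0
    have hβ := app_mem hφf hn0
    have h1 := hφ n0 hn0
    rw [hFapp n0 hn0 _ hβ] at h1
    exact ((hB2 n0 hn0 _ hβ).2 G hG).1 (w3 s hsG _ (hB2 n0 hn0 _ hβ).1 h1)
  apply ho.2.1
  refine Or.inr ⟨φ, hMφ, hφf, fun β hβ => ?_⟩
  obtain ⟨a, ha, hab⟩ := hf.2 β hβ
  refine ⟨a, ha, ?_⟩
  have h1 : β = app φ a := svl_of_isFunc hf.1 _ _ _ hab (hval a ha)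
  rw [h1]
  exact pair_app_mem hφf ha

end SF.H19
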